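import Pool.Agent.H10.FEX.Stmts
import Pool.Agent.H37.FEW.REP

/-!
# FEX, row RE2: the primes of a triple with few exponents as a vector
-/

set_option autoImplicit false

namespace Pool.FEX

open Finset Pool.Agent.H98.ABCR Pool.SHA Pool.FEW

theorem colour (v : ℕ × ℕ) (hv : IsTri v) : ∃ c : ℕ → Fin 3,
    (∀ i, (coord v i).primeFactors = (nn v).primeFactors.filter (fun q => c q = i)) ∧
    ∀ i, ∀ q ∈ (coord v i).primeFactors,
      (nn v).factorization q = (coord v i).factorization q := by
  classical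
  obtain ⟨S, hS⟩ : ∃ S, S = (nn v).primeFactors := ⟨_, rfl⟩
  have hn0 : nn v ≠ 0 := by
    rw [nn_prod]
    exact prod_ne_zero_iff.mpr fun i _ => coord_ne v hv i
  have hex : ∀ q ∈ S, ∃ i : Fin 3, q ∣ coord v i := by
    intro q hq
    rw [hS] at hq
    have hq' := Nat.mem_primeFactors.mp hq
    have h3 : q ∣ ∏ i, coord v i := by
      rw [← nn_prod]
      exact hq'.2.1
    obtain ⟨i, _, hi⟩ := (hq'.1.prime.dvd_finsetProd_iff _).mp h3
    exact ⟨i, hi⟩
  let c : ℕ → Fin 3 := fun q => if h : ∃ i : Fin 3, q ∣ coord v i then h.choose else 0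
  have hc : ∀ q ∈ S, q ∣ coord v (c q) := by
    intro q hq
    have h := hex q hq
    show q ∣ coord v (if h : ∃ i : Fin 3, q ∣ coord v i then h.choose else 0)
    rw [dif_pos h]
    exact h.choose_spec
  have hcu : ∀ q, q.Prime → ∀ i, q ∣ coord v i → q ∈ S → c q = i := by
    intro q hq i hi hqS
    by_contra hne
    have h3 := Nat.dvd_gcd (hc q hqS) hi
    rw [Nat.Coprime.gcd_eq_one (coord_cop v hv _ _ hne)] at h3
    exact hq.one_lt.ne' (Nat.dvd_one.mp h3)
  refine ⟨c, fun i => ?_, fun i q hq => ?_⟩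
  · rw [← hS]
    ext q
    rw [mem_filter]
    constructor
    · intro hq
      have hq' := Nat.mem_primeFactors.mp hq
      have hqS : q ∈ S := by
        rw [hS, Nat.mem_primeFactors]
        refine ⟨hq'.1, ?_, hn0⟩
        rw [nn_prod]
        exact hq'.2.1.trans (dvd_prod_of_mem _ (mem_univ i))
      exact ⟨hqS, hcu q hq'.1 i hq'.2.1 hqS⟩
    · rintro ⟨hqS, rfl⟩
      rw [Nat.mem_primeFactors]
      refine ⟨?_, hc q hqS, coord_ne v hv _⟩
      rw [hS] at hqS
      exact (Nat.mem_primeFactors.mp hqS).1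
  · rw [nn_prod, Nat.factorization_prod (fun i _ => coord_ne v hv i), Finsupp.finsetSum_apply]
    rw [sum_eq_single i]
    · intro j _ hji
      apply Nat.factorization_eq_zero_of_not_dvd
      intro hd
      have hq' := Nat.mem_primeFactors.mp hq
      have h3 := Nat.dvd_gcd hd hq'.2.1
      rw [coord_cop v hv j i hji] at h3
      exact hq'.1.one_lt.ne' (Nat.dvd_one.mp h3)
    · intro h3
      exact absurd (mem_univ i) h3

theorem prod_split {m k : ℕ} (F : (Fin 3 × Fin m) ⊕ Fin k → ℕ) (t : Fin k → Fin 3) (i : Fin 3) :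
    ∏ j ∈ univ.filter (fun j : (Fin 3 × Fin m) ⊕ Fin k =>
      Sum.elim (fun w : Fin 3 × Fin m => w.1) t j = i), F j =
      (∏ b ∈ univ.filter (fun b => t b = i), F (Sum.inr b)) * ∏ a, F (Sum.inl (i, a)) := by
  rw [prod_filter, Fintype.prod_sum_type, mul_comm, ← prod_filter]
  congr 1
  rw [Fintype.prod_prod_type]
  rw [prod_eq_single i]
  · simp
  · intro i' _ hi'
    simp [hi']
  · intro h
    exact absurd (mem_univ i) h

theorem re2_thm : S_RE2 := by
  classical
  intro m k v hv hfew
  obtain ⟨E, hE, hB⟩ := hfew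
  obtain ⟨c, hA, hfac⟩ := colour v hv
  obtain ⟨S, hS⟩ : ∃ S, S = (nn v).primeFactors := ⟨_, rfl⟩
  rw [← hS] at hB hA
  obtain ⟨n, hn⟩ : ∃ n : ℕ → ℕ, n = fun q => (nn v).factorization q := ⟨_, rfl⟩
  have hB' : (S.filter (fun q => n q ∉ E)).card ≤ k := by rw [hn]; exact hB
  obtain ⟨f, pB, h1, h2⟩ := enum k _ hB'
  obtain ⟨fE⟩ : Nonempty (E ↪ Fin m) := Function.Embedding.nonempty_of_card_le (by
    rw [Fintype.card_coe, Fintype.card_fin]
    exact hE)
  let ι : ℕ → Option (Fin m) := fun q => if h : n q ∈ E then some (fE ⟨n q, h⟩) else none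
  let ex : Fin m → ℕ := fun a => if h : ∃ u : E, fE u = a then (h.choose : ℕ) else 0
  have hιn : ∀ q, ι q = none ↔ n q ∉ E := by
    intro q
    by_cases h : n q ∈ E
    · simp [ι, h]
    · simp [ι, h]
  have hιs : ∀ q a, ι q = some a → ex a = n q := by
    intro q a hqa
    by_cases h : n q ∈ E
    · have h3 : fE ⟨n q, h⟩ = a := by
        have h4 : ι q = some (fE ⟨n q, h⟩) := dif_pos h
        rw [h4] at hqa
        exact Option.some.inj hqa
      have h5 : ∃ u : E, fE u = a := ⟨_, h3⟩
      have h6 : ex a = (h5.choose : ℕ) := dif_pos h5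
      have h7 : h5.choose = ⟨n q, h⟩ := by
        apply fE.injective
        rw [h5.choose_spec, h3]
      rw [h6, h7]
    · rw [(hιn q).2 h] at hqa
      exact absurd hqa (by simp)
  -- the splitting
  have hsp : ∀ (G : ℕ → ℕ), G 1 = 1 → ∀ i : Fin 3, ∏ q ∈ S.filter (fun q => c q = i), G q =
      (∏ b ∈ univ.filter (fun b => c (pB b) = i), G (pB b)) *
        ∏ a : Fin m, ∏ q ∈ (S.filter (fun q => c q = i)).filter (fun q => ι q = some a), G q := by
    intro G hG i
    rw [← prod_fiberwise (S.filter (fun q => c q = i)) ι G, Fintype.prod_option]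
    congr 1
    rw [prod_enum k _ f pB h1 h2 G hG (fun q => c q = i)]
    apply prod_congr _ fun _ _ => rfl
    ext q
    simp only [mem_filter, hιn]
    tauto
  let T : Fin 3 → Fin m → Finset ℕ := fun i a =>
    (S.filter (fun q => c q = i)).filter (fun q => ι q = some a)
  let p : (Fin 3 × Fin m) ⊕ Fin k → ℕ := Sum.elim (fun w => ∏ q ∈ T w.1 w.2, q) pB
  let x : (Fin 3 × Fin m) ⊕ Fin k → ℕ := Sum.elim (fun w => ex w.2)
    (fun b => if pB b = 1 then 0 else n (pB b))
  let tt : (Fin 3 × Fin m) ⊕ Fin k → Fin 3 := Sum.elim (fun w => w.1) (fun b => c (pB b))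
  have hSp : ∀ q ∈ S, q.Prime := fun q hq => by
    rw [hS] at hq
    exact (Nat.mem_primeFactors.mp hq).1
  have hrad : ∀ i, rad (coord v i) = ∏ j ∈ univ.filter (fun j => tt j = i), p j := by
    intro i
    have h3 := prod_split p (fun b => c (pB b)) i
    have h4 := hsp id rfl i
    have h5 : rad (coord v i) = ∏ q ∈ S.filter (fun q => c q = i), id q := by
      rw [← hA i]
      rfl
    rw [h5, h4]
    exact h3.symm
  refine ⟨p, x, tt, fun i => ?_, hrad, ?_, ?_, ?_⟩
  · have h3 := prod_split (fun j => p j ^ x j) (fun b => c (pB b)) i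
    have h4 := hsp (fun q => q ^ (if q = 1 then 0 else n q)) (by simp) i
    have h5 : coord v i =
        ∏ q ∈ S.filter (fun q => c q = i), q ^ (if q = 1 then 0 else n q) := by
      rw [← hA i]
      refine (Nat.prod_primeFactors_pow_factorization (coord_ne v hv i)).trans ?_
      refine prod_congr rfl fun q hq => ?_
      have h6 := (Nat.mem_primeFactors.mp hq).1
      rw [if_neg h6.one_lt.ne', hn]
      show _ = q ^ (nn v).factorization q
      rw [hfac i q hq]
    refine h5.trans (h4.trans (Eq.trans ?_ h3.symm))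
    congr 1
    refine prod_congr rfl fun a _ => ?_
    show _ = (∏ q ∈ T i a, q) ^ ex a
    rw [← prod_pow]
    refine prod_congr rfl fun q hq => ?_
    have hq' := mem_filter.mp hq
    have h6 := hSp q (mem_filter.mp hq'.1).1
    rw [if_neg h6.one_lt.ne', hιs q a hq'.2]
  · have h3 : RR v = ∏ q ∈ S, q := by
      rw [hS]
      rfl
    rw [h3, ← prod_fiberwise S c (fun q => q), ← prod_fiberwise univ tt p]
    refine prod_congr rfl fun i _ => ?_
    rw [← hrad i, ← hA i]
    rfl
  · rintro (⟨i, a⟩ | b) hj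
    · have h3 : (T i a).Nonempty := by
        by_contra h
        rw [not_nonempty_iff_eq_empty] at h
        apply hj
        show ∏ q ∈ T i a, q = 1
        rw [h, prod_empty]
      obtain ⟨q, hq⟩ := h3
      have hq' := mem_filter.mp hq
      refine ⟨q, ?_, ?_⟩
      · rw [← hS]
        exact (mem_filter.mp hq'.1).1
      · show ex a = (nn v).factorization q
        rw [hιs q a hq'.2, hn]
    · rcases h2 b with h | ⟨q, rfl⟩
      · exact absurd h hj
      · refine ⟨pB (f q), ?_, ?_⟩
        · rw [h1 q, ← hS]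
          exact (mem_filter.mp q.2).1
        · have hj' : ¬ pB (f q) = 1 := hj
          show (if pB (f q) = 1 then 0 else n (pB (f q))) = _
          rw [if_neg hj']
          exact congrFun hn _
  · intro b
    rcases h2 b with h | ⟨q, rfl⟩
    · exact Or.inl h
    · right
      show (pB (f q)).Prime
      rw [h1 q]
      exact hSp _ (mem_filter.mp q.2).1

end Pool.FEX
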