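import Pool.Agent.H10.FEX.Stmts3
import Pool.Agent.H80.FEX.RE2

/-!
# FEX, row RE3: few exponents give products of powers of pairwise coprime integers
-/

set_option autoImplicit false

namespace Pool.FEX

open Finset Pool.Agent.H98.ABCR Pool.SHA Pool.FEW

theorem sqf_prod_primes (S : Finset ℕ) (hS : ∀ q ∈ S, q.Prime) : Squarefree (∏ q ∈ S, q) := by
  classical
  induction S using Finset.induction_on with
  | empty => simp
  | insert q S hq ih =>
    rw [prod_insert hq, Nat.squarefree_mul]
    · exact ⟨(hS q (mem_insert_self q S)).prime.squarefree,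
        ih fun q' h => hS q' (mem_insert_of_mem h)⟩
    · rw [Nat.coprime_prod_right_iff]
      intro q' hq'
      rw [Nat.coprime_primes (hS q (mem_insert_self q S)) (hS q' (mem_insert_of_mem hq'))]
      rintro rfl
      exact hq hq'

theorem re3_thm : S_RE3 := by
  classical
  intro m k v X Y hv hfew hX hY
  obtain ⟨p, x, tt, h1, h2, h3, h4, h5⟩ := re2_thm m k v hv hfew
  refine ⟨p, x, tt, h1, ?_, ?_, h5, ?_, ?_⟩
  · intro j
    by_cases hj : p j = 1
    · exact Or.inl hj
    · right
      obtain ⟨q, hq, hx⟩ := h4 j hj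
      have hq' := Nat.mem_primeFactors.mp hq
      rw [hx]
      exact hq'.1.factorization_pos_of_dvd hq'.2.2 hq'.2.1
  · have hsq : Squarefree (∏ j, p j) := by
      rw [← h3]
      exact sqf_prod_primes _ fun q hq => (Nat.mem_primeFactors.mp hq).1
    intro j j' hne
    have h6 : p j * p j' ∣ ∏ j, p j := by
      rw [← mul_prod_erase univ p (mem_univ j)]
      exact mul_dvd_mul_left _ (dvd_prod_of_mem p (mem_erase.mpr ⟨hne.symm, mem_univ j'⟩))
    exact Nat.coprime_of_squarefree_mul (hsq.squarefree_of_dvd h6)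
  · rw [← h3]
    exact hX
  · obtain ⟨i, hi⟩ := hY
    refine ⟨i, ?_⟩
    rw [← h2 i]
    exact hi

end Pool.FEX
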